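import Pool.Agent.Helper95.LN.Stmts

/-! # DEX: the field energy as a double sum -/

set_option autoImplicit false

open MeasureTheory Filter Pool.Agent.Helper95.PW Pool.Agent.Helper95.LN

namespace Pool.Agent.Helper41.LN

theorem DEX_I (h1 : ST_EID) (h5 : ST_PHC) (b : ℝ) (hb : 0 < b) (x y : R3) :
    ∫ w, ∑ i, pd i (ph b) (w - x) * pd i (ph b) (w - y) = kap * Kf b (x - y) := by
  have hk : kap ≠ 0 := h5.2.1.ne'
  rw [(h1 b x y hb).2]
  rw [← integral_add_right_eq_self (fun w : R3 => ph b (w - x) * et b (w - y)) y]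
  unfold Kf
  rw [← mul_assoc, mul_one_div_cancel hk, one_mul]
  refine integral_congr_ae (Filter.Eventually.of_forall fun w => ?_)
  show ph b (w + y - x) * et b (w + y - y) = ph b (w - (x - y)) * et b w
  rw [add_sub_cancel_right, show w + y - x = w - (x - y) by abel]

theorem DEX_gen {ι : Type} [Fintype ι] (h1 : ST_EID) (h5 : ST_PHC) (b : ℝ) (hb : 0 < b)
    (q : ι → ℝ) (p : ι → R3) :
    Integrable (fun w : R3 => ∑ i, (∑ a, q a * pd i (ph b) (w - p a)) ^ 2) ∧
    ∫ w : R3, ∑ i, (∑ a, q a * pd i (ph b) (w - p a)) ^ 2 =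
      kap * ∑ a, ∑ c, q a * q c * Kf b (p a - p c) := by
  have e : (fun w : R3 => ∑ i, (∑ a, q a * pd i (ph b) (w - p a)) ^ 2) =
      fun w : R3 => ∑ a, ∑ c, q a * q c *
        ∑ i, pd i (ph b) (w - p a) * pd i (ph b) (w - p c) := by
    funext w
    have h : ∀ i, (∑ a, q a * pd i (ph b) (w - p a)) ^ 2 = ∑ a, ∑ c, q a * q c *
        (pd i (ph b) (w - p a) * pd i (ph b) (w - p c)) := by
      intro i
      rw [pow_two, Finset.sum_mul_sum]
      refine Finset.sum_congr rfl fun a _ => Finset.sum_congr rfl fun c _ => ?_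
      ring
    simp only [h]
    rw [Finset.sum_comm]
    refine Finset.sum_congr rfl fun a _ => ?_
    rw [Finset.sum_comm]
    refine Finset.sum_congr rfl fun c _ => ?_
    rw [Finset.mul_sum]
  rw [e]
  have hint : ∀ a c, Integrable (fun w : R3 => q a * q c *
      ∑ i, pd i (ph b) (w - p a) * pd i (ph b) (w - p c)) := fun a c =>
    ((h1 b (p a) (p c) hb).1).const_mul _
  refine ⟨integrable_finsetSum _ fun a _ => integrable_finsetSum _ fun c _ => hint a c, ?_⟩
  rw [integral_finsetSum _ (fun a _ => integrable_finsetSum _ fun c _ => hint a c),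
    Finset.mul_sum]
  refine Finset.sum_congr rfl fun a _ => ?_
  rw [integral_finsetSum _ (fun c _ => hint a c), Finset.mul_sum]
  refine Finset.sum_congr rfl fun c _ => ?_
  rw [integral_const_mul, DEX_I h1 h5 b hb]
  ring

theorem DEX_fd (h3 : ST_PHA) (b : ℝ) (hb : 0 < b) (c w : R3) :
    HasFDerivAt (fun w : R3 => ph b (w - c)) (fderiv ℝ (ph b) (w - c)) w := by
  have hd : Differentiable ℝ (ph b) := (h3 b hb).1.differentiable (by simp)
  have h := (hd (w - c)).hasFDerivAt.comp w ((hasFDerivAt_id w).sub_const c)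
  rw [ContinuousLinearMap.comp_id] at h
  exact h

theorem DEX_pd (h3 : ST_PHA) (b : ℝ) (hb : 0 < b) {n M : ℕ} (X : Fin M → R3) (Z : Fin M → ℝ)
    (x : Cf n) (i : Fin 3) (w : R3) :
    pd i (Pt b X Z x) w = (∑ k, pd i (ph b) (w - x k)) - ∑ j, Z j * pd i (ph b) (w - X j) := by
  have h : HasFDerivAt (Pt b X Z x) ((∑ k, fderiv ℝ (ph b) (w - x k)) -
      ∑ j, Z j • fderiv ℝ (ph b) (w - X j)) w := by
    refine HasFDerivAt.sub (HasFDerivAt.fun_sum fun k _ => DEX_fd h3 b hb (x k) w)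
      (HasFDerivAt.fun_sum fun j _ => (DEX_fd h3 b hb (X j) w).const_mul (Z j))
  unfold pd
  rw [h.fderiv]
  simp only [_root_.sub_apply, _root_.sum_apply,
    _root_.smul_apply, smul_eq_mul]

theorem DEX (h1 : ST_EID) (_h2 : ST_KK) (h3 : ST_PHA) (_h4 : ST_PHB) (h5 : ST_PHC) : ST_DEX := by
  intro b n M X Z x hb
  have hk : kap ≠ 0 := h5.2.1.ne'
  obtain ⟨g1, g2⟩ := DEX_gen h1 h5 b hb (Sum.elim (fun _ : Fin n => (1 : ℝ)) (fun j => -Z j))
    (Sum.elim x X)
  have e : (fun w : R3 => ∑ i, pd i (Pt b X Z x) w ^ 2) = fun w : R3 => ∑ i,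
      (∑ a : Fin n ⊕ Fin M, (Sum.elim (fun _ : Fin n => (1 : ℝ)) (fun j => -Z j)) a *
        pd i (ph b) (w - (Sum.elim x X) a)) ^ 2 := by
    funext w
    refine Finset.sum_congr rfl fun i _ => ?_
    rw [DEX_pd h3 b hb, Fintype.sum_sum_type]
    congr 1
    simp only [Sum.elim_inl, Sum.elim_inr, one_mul, neg_mul, Finset.sum_neg_distrib]
    ring
  have hsym : ∀ u v : R3, Kf b (u - v) = Kf b (v - u) := by
    intro u v
    have e1 := DEX_I h1 h5 b hb u v
    have e2 := DEX_I h1 h5 b hb v u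
    have e3 : ∫ w, ∑ i, pd i (ph b) (w - u) * pd i (ph b) (w - v) =
        ∫ w, ∑ i, pd i (ph b) (w - v) * pd i (ph b) (w - u) := by
      refine integral_congr_ae (Filter.Eventually.of_forall fun w => ?_)
      exact Finset.sum_congr rfl fun i _ => mul_comm _ _
    rw [e1, e2] at e3
    exact mul_left_cancel₀ hk e3
  refine ⟨?_, ?_⟩
  · rw [e]
    exact g1
  · unfold Dn
    rw [e, g2, ← mul_assoc, one_div_mul_cancel hk, one_mul, Fintype.sum_sum_type]
    simp only [Fintype.sum_sum_type, Sum.elim_inl, Sum.elim_inr, one_mul, mul_one]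
    rw [Finset.sum_add_distrib, Finset.sum_add_distrib]
    have c1 : ∑ k : Fin n, ∑ j : Fin M, -Z j * Kf b (x k - X j) =
        -∑ k, ∑ j, Z j * Kf b (x k - X j) := by
      simp only [neg_mul, Finset.sum_neg_distrib]
    have c2 : ∑ j : Fin M, ∑ k : Fin n, -Z j * Kf b (X j - x k) =
        -∑ k, ∑ j, Z j * Kf b (x k - X j) := by
      rw [Finset.sum_comm, ← c1]
      refine Finset.sum_congr rfl fun k _ => Finset.sum_congr rfl fun j _ => ?_
      rw [hsym (X j) (x k)]
    have c3 : ∑ i : Fin M, ∑ j : Fin M, -Z i * -Z j * Kf b (X i - X j) =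
        ∑ i, ∑ j, Z i * Z j * Kf b (X i - X j) := by
      refine Finset.sum_congr rfl fun k _ => Finset.sum_congr rfl fun j _ => ?_
      ring
    rw [c1, c2, c3]
    ring

end Pool.Agent.Helper41.LN
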